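import Pool.Agent.H85.TG.Cov

set_option autoImplicit false
set_option linter.unusedSectionVars false

/-!
# Grafts of wheel type (MP_367fb1_co): the contraction of the added element is graphic
-/

open Set Matroid Module Submodule
open scoped Matroid

namespace Pool.Agent.H85.TV

open Pool.Agent.H18.SG (vec linMat linMat_indep linMat_ground gr)
open Pool.Agent.H36.TX (IsRep Rep Regular ThreeConn)
open Pool.Agent.H85.TX (rk indepOn_iff eRk_eq Represents mem_closure_iff)
open Pool.Agent.H85.TG (Graphic Conn sumC sumC_single sub_vec add_self_vec contr_iff zmod_one)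

variable {V E : Type} [Fintype V] [DecidableEq V] [Finite E] {m : ℕ} [NeZero m]
variable {s t : E → V} {h : V} {q : ZMod m → V} {c : V → ZMod m}

/-- the vectors: the incidence vectors of the edges, and for the added element `none` the sum of the
vertices `h` and `q i` -/
def evW (s t : E → V) (h : V) (q : ZMod m → V) : Option E → V → ZMod 2
  | none => Pi.single h 1 + ∑ i, Pi.single (q i) 1
  | some f => vec (ZMod 2) s t f

/-- the graft matroid with `T = {h} ∪ {q i : i}` -/
def graftW (s t : E → V) (h : V) (q : ZMod m → V) : Matroid (Option E) :=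
  linMat (ZMod 2) (evW s t h q)

/-- `u` is outside of `T` -/
def Out (h : V) (q : ZMod m → V) (u : V) : Prop := u ≠ h ∧ ∀ i, q i ≠ u

/-- the condition on a pair of adjacent vertices `a`, `b`: outside of `T` adjacent vertices have the
same colour, `q i` is adjacent to vertices outside of `T` of colour `i` and `i - 1` only, and to
`q (i - 1)`, `q (i + 1)` (and `q i`) only -/
def Fits (h : V) (q : ZMod m → V) (c : V → ZMod m) (a b : V) : Prop :=
  (Out h q a → Out h q b → c a = c b) ∧
    (∀ i, q i = a → Out h q b → i = c b ∨ i = c b + 1) ∧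
    ∀ i j, q i = a → q j = b → j = i ∨ j = i + 1 ∨ i = j + 1

/-- the graph is a wheel with hub `h` and rim `q 0, q 1, ...` whose triangles `h, q i, q (i + 1)` are
filled with graphs (the vertices of colour `i`) -/
def Wheel (s t : E → V) (h : V) (q : ZMod m → V) (c : V → ZMod m) : Prop :=
  ∀ f, Fits h q c (s f) (t f) ∧ Fits h q c (t f) (s f)

/-- the images of the vertices -/
noncomputable def img (h : V) (q : ZMod m → V) (c : V → ZMod m) (u : V) : V ⊕ ZMod m → ZMod 2 :=
  if u = h then 0 else if H : ∃ i, q i = u then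
    Pi.single (Sum.inr H.choose) 1 + Pi.single (Sum.inr (H.choose + 1)) 1
  else Pi.single (Sum.inl u) 1 + Pi.single (Sum.inr (c u + 1)) 1

theorem img_h : img h q c h = 0 := if_pos rfl

theorem img_q (hq : Function.Injective q) (hh : ∀ i, q i ≠ h) (i : ZMod m) : img h q c (q i) =
    Pi.single (Sum.inr i) 1 + Pi.single (Sum.inr (i + 1)) 1 := by
  have H : ∃ j, q j = q i := ⟨i, rfl⟩
  have h1 : H.choose = i := hq H.choose_spec
  unfold img
  rw [if_neg (hh i), dif_pos H, h1]

theorem img_out {u : V} (hu : Out h q u) : img h q c u =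
    Pi.single (Sum.inl u) 1 + Pi.single (Sum.inr (c u + 1)) 1 := by
  have H : ¬ ∃ i, q i = u := fun ⟨i, hi⟩ => hu.2 i hi
  unfold img
  rw [if_neg hu.1, dif_neg H]

theorem cases3 (h : V) (q : ZMod m → V) (a : V) : a = h ∨ (∃ i, q i = a) ∨ Out h q a := by
  by_cases h1 : a = h
  · exact Or.inl h1
  · by_cases h2 : ∃ i, q i = a
    · exact Or.inr (Or.inl h2)
    · push Not at h2
      exact Or.inr (Or.inr ⟨h1, h2⟩)

theorem exists_ends (hq : Function.Injective q) (hh : ∀ i, q i ≠ h) {a b : V}
    (h1 : Fits h q c a b) (h2 : Fits h q c b a) :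
    ∃ x y : V ⊕ ZMod m, img h q c a - img h q c b = Pi.single x 1 - Pi.single y 1 := by
  rcases cases3 h q a with ha | ⟨i, ha⟩ | ha
  · rcases cases3 h q b with hb | ⟨j, hb⟩ | hb
    · exact ⟨Sum.inr 0, Sum.inr 0, by rw [ha, hb, sub_self, sub_self]⟩
    · refine ⟨Sum.inr j, Sum.inr (j + 1), ?_⟩
      rw [ha, ← hb, img_h, img_q hq hh, sub_vec, sub_vec, zero_add]
    · refine ⟨Sum.inl b, Sum.inr (c b + 1), ?_⟩
      rw [ha, img_h, img_out hb, sub_vec, sub_vec, zero_add]
  · rcases cases3 h q b with hb | ⟨j, hb⟩ | hb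
    · refine ⟨Sum.inr i, Sum.inr (i + 1), ?_⟩
      rw [hb, ← ha, img_h, img_q hq hh, sub_zero, sub_vec]
    · rcases h1.2.2 i j ha hb with h3 | h3 | h3
      · refine ⟨Sum.inr 0, Sum.inr 0, ?_⟩
        rw [← ha, ← hb, h3, sub_self, sub_self]
      · refine ⟨Sum.inr i, Sum.inr (j + 1), ?_⟩
        rw [← ha, ← hb, img_q hq hh, img_q hq hh, h3]
        abel
      · refine ⟨Sum.inr (i + 1), Sum.inr j, ?_⟩
        rw [← ha, ← hb, img_q hq hh, img_q hq hh, h3]
        abel
    · rcases h1.2.1 i ha hb with h3 | h3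
      · refine ⟨Sum.inr i, Sum.inl b, ?_⟩
        rw [← ha, img_q hq hh, img_out hb, h3]
        abel
      · refine ⟨Sum.inr (i + 1), Sum.inl b, ?_⟩
        rw [← ha, img_q hq hh, img_out hb, ← h3]
        abel
  · rcases cases3 h q b with hb | ⟨j, hb⟩ | hb
    · refine ⟨Sum.inl a, Sum.inr (c a + 1), ?_⟩
      rw [hb, img_h, img_out ha, sub_zero, sub_vec]
    · rcases h2.2.1 j hb ha with h3 | h3
      · refine ⟨Sum.inl a, Sum.inr j, ?_⟩
        rw [← hb, img_q hq hh, img_out ha, h3]
        abel
      · refine ⟨Sum.inl a, Sum.inr (j + 1), ?_⟩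
        rw [← hb, img_q hq hh, img_out ha, ← h3]
        abel
    · refine ⟨Sum.inl a, Sum.inl b, ?_⟩
      rw [img_out ha, img_out hb, h1.1 ha hb]
      abel

/-- the linear map -/
noncomputable def φ (h : V) (q : ZMod m → V) (c : V → ZMod m) :
    (V → ZMod 2) →ₗ[ZMod 2] (V ⊕ ZMod m → ZMod 2) :=
  Fintype.linearCombination (ZMod 2) (img h q c)

theorem φ_single (u : V) : φ h q c (Pi.single u 1) = img h q c u := by
  unfold φ
  rw [Fintype.linearCombination_apply_single, one_smul]

theorem φ_none (hq : Function.Injective q) (hh : ∀ i, q i ≠ h) :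
    φ h q c (evW s t h q none) = 0 := by
  show φ h q c (Pi.single h 1 + ∑ i, Pi.single (q i) 1) = 0
  rw [map_add, map_sum]
  simp only [φ_single, img_h, img_q hq hh, zero_add, Finset.sum_add_distrib]
  have h1 : ∑ i : ZMod m, (Pi.single (Sum.inr (i + 1)) 1 : V ⊕ ZMod m → ZMod 2) =
      ∑ i : ZMod m, Pi.single (Sum.inr i) 1 :=
    Equiv.sum_comp (Equiv.addRight (1 : ZMod m))
      (fun i => (Pi.single (Sum.inr i) 1 : V ⊕ ZMod m → ZMod 2))
  rw [h1, add_self_vec]

theorem natCast_odd (hm : m % 2 = 1) : ((m : ℕ) : ZMod 2) = 1 := by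
  rw [ZMod.natCast_eq_one_iff_odd]
  exact Nat.odd_iff.2 hm

theorem sumC_evW (hm : m % 2 = 1) (o : Option E) : sumC (evW s t h q o) = 0 := by
  rcases o with _ | f
  · show sumC (Pi.single h 1 + ∑ i, Pi.single (q i) 1) = 0
    rw [map_add, map_sum]
    simp only [sumC_single, Finset.sum_const, Finset.card_univ, ZMod.card, nsmul_eq_mul, mul_one]
    rw [natCast_odd hm]
    decide
  · show sumC (vec (ZMod 2) s t f) = 0
    unfold vec
    rw [map_sub, sumC_single, sumC_single, sub_self]

theorem ker_φ (hq : Function.Injective q) (hh : ∀ i, q i ≠ h) (hm : m % 2 = 1)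
    (x : V → ZMod 2) (hx : sumC x = 0) (h0 : φ h q c x = 0) :
    x ∈ span (ZMod 2) {evW s t h q none} := by
  have h0' : ∑ u, x u • img h q c u = 0 := by
    rw [← Fintype.linearCombination_apply]
    exact h0
  -- the coordinates outside of `T`
  have h1 : ∀ u, Out h q u → x u = 0 := by
    intro u hu
    have h2 := congrFun h0' (Sum.inl u)
    rw [Finset.sum_apply, Finset.sum_eq_single u] at h2
    · simpa [img_out hu] using h2
    · intro b _ hb
      rcases cases3 h q b with h3 | ⟨i, h3⟩ | h3
      · rw [h3, img_h]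
        simp
      · rw [← h3, img_q hq hh]
        simp
      · rw [img_out h3]
        simp [hb.symm]
    · intro h3
      exact absurd (Finset.mem_univ u) h3
  have hx2 : x = x h • Pi.single h 1 + ∑ i, x (q i) • (Pi.single (q i) 1 : V → ZMod 2) := by
    funext u
    rw [Pi.add_apply, Finset.sum_apply]
    rcases cases3 h q u with h3 | ⟨i, h3⟩ | h3
    · rw [h3, Finset.sum_eq_zero]
      · simp
      · intro i _
        rw [Pi.smul_apply, Pi.single_eq_of_ne (hh i).symm, smul_zero]
    · rw [← h3, Finset.sum_eq_single i]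
      · simp [Pi.single_eq_of_ne (hh i)]
      · intro j _ hj
        rw [Pi.smul_apply, Pi.single_eq_of_ne (fun h4 => hj (hq h4).symm), smul_zero]
      · intro h4
        exact absurd (Finset.mem_univ i) h4
    · rw [h1 u h3, Finset.sum_eq_zero]
      · simp [Pi.single_eq_of_ne h3.1]
      · intro i _
        rw [Pi.smul_apply, Pi.single_eq_of_ne (h3.2 i).symm, smul_zero]
  have h2 : ∀ k : ZMod m, x (q (k + 1)) = x (q k) := by
    intro k
    have h3 := h0
    rw [hx2, map_add, map_smul, map_sum] at h3
    simp only [map_smul, φ_single, img_h, img_q hq hh, smul_zero, zero_add] at h3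
    have h4 := congrFun h3 (Sum.inr (k + 1))
    rw [Finset.sum_apply] at h4
    simp only [Pi.smul_apply, Pi.add_apply, Pi.single_apply, Sum.inr.injEq, smul_eq_mul, mul_add,
      mul_ite, mul_one, mul_zero, Finset.sum_add_distrib, add_left_inj, Finset.sum_ite_eq,
      Finset.mem_univ, if_true, Pi.zero_apply] at h4
    revert h4
    generalize x (q (k + 1)) = a
    generalize x (q k) = b
    revert a b
    decide
  have h3 : ∀ k : ZMod m, x (q k) = x (q 0) := by
    intro k
    have h4 : ∀ n : ℕ, x (q (n : ZMod m)) = x (q 0) := by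
      intro n
      induction n with
      | zero => rw [Nat.cast_zero]
      | succ n ih => rw [Nat.cast_succ, h2, ih]
    rw [← ZMod.natCast_zmod_val k]
    exact h4 _
  have h4 : x h = x (q 0) := by
    have h5 : sumC x = x h + ∑ i, x (q i) := by
      conv_lhs => rw [hx2]
      rw [map_add, map_sum]
      simp only [map_smul, sumC_single, smul_eq_mul, mul_one]
    rw [hx] at h5
    simp only [h3, Finset.sum_const, Finset.card_univ, ZMod.card, nsmul_eq_mul] at h5
    rw [natCast_odd hm, one_mul] at h5
    revert h5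
    generalize x h = a
    generalize x (q 0) = b
    revert a b
    decide
  rw [mem_span_singleton]
  refine ⟨x (q 0), ?_⟩
  show x (q 0) • (Pi.single h 1 + ∑ i, Pi.single (q i) 1 : V → ZMod 2) = x
  conv_rhs => rw [hx2]
  rw [smul_add, Finset.smul_sum, h4]
  simp only [h3]

theorem evW_ne (hh : ∀ i, q i ≠ h) : evW s t h q none ≠ 0 := by
  intro h0
  have h1 := congrFun h0 h
  change (Pi.single h 1 + ∑ i, (Pi.single (q i) 1 : V → ZMod 2) : V → ZMod 2) h = 0 at h1
  rw [Pi.add_apply, Pi.single_eq_same, Finset.sum_apply, Finset.sum_eq_zero, add_zero] at h1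
  · exact one_ne_zero h1
  · intro i _
    rw [Pi.single_eq_of_ne (hh i).symm]

theorem contract_graphic (hq : Function.Injective q) (hh : ∀ i, q i ≠ h) (hm : m % 2 = 1)
    (hw : Wheel s t h q c) : Graphic (graftW s t h q ／ {none}) := by
  choose a b hab using fun f => exists_ends hq hh (hw f).1 (hw f).2
  refine ⟨V ⊕ ZMod m, inferInstance, inferInstance, fun o : Option E => o.elim (Sum.inr 0) a,
    fun o : Option E => o.elim (Sum.inr 0) b, ?_⟩
  intro I hI
  have hn : none ∉ I := fun h => (hI h).2 rfl
  have hnl : (graftW s t h q).IsNonloop none := by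
    rw [← indep_singleton, graftW, linMat_indep]
    exact LinearIndepOn.singleton (evW_ne hh)
  rw [hnl.contractElem_indep_iff, and_iff_right hn, graftW, linMat_indep,
    contr_iff (evW s t h q) (φ h q c) hn (evW_ne hh) (φ_none hq hh)]
  · apply linearIndepOn_congr
    intro o ho
    rcases o with _ | f
    · exact absurd ho hn
    · show φ h q c (vec (ZMod 2) s t f) = vec (ZMod 2) _ _ (some f)
      unfold vec
      rw [map_sub, φ_single, φ_single, hab f]
      rfl
  · intro x hx h0
    refine ker_φ hq hh hm x ?_ h0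
    have h2 : span (ZMod 2) (range (evW s t h q)) ≤ LinearMap.ker (sumC (V := V)) := by
      rw [span_le]
      rintro _ ⟨o, rfl⟩
      exact sumC_evW hm o
    exact h2 hx

end Pool.Agent.H85.TV
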