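import Pool.Agent.H85.TV.Nor

set_option autoImplicit false
set_option linter.unusedSectionVars false

/-!
# Grafts of wheel type (MP_367fb1_co): linkages in 3-connected graphs, main theorem
-/

open Set Matroid Module Submodule
open scoped Matroid

namespace Pool.Agent.H85.TV

open Pool.Agent.H18.SG (vec linMat linMat_indep linMat_ground gr)
open Pool.Agent.H36.TX (IsRep Rep Regular ThreeConn)
open Pool.Agent.H85.TX (rk indepOn_iff eRk_eq Represents mem_closure_iff)
open Pool.Agent.H85.TG (Graphic Conn Off sumC sumC_single sub_vec add_self_vec zmod_one graft ev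
  vec_zero exists_edge vec_mem_off cut tc inf_small two_le_star tri_mem sub_mem_span card_of_three
  three_of_delete ncard_some)

variable {V E : Type} [Fintype V] [DecidableEq V] [Finite E] {m : ℕ} [NeZero m]
variable {s t : E → V} {h : V} {q : ZMod m → V} {c : V → ZMod m}

theorem del_eq (p : Fin 4 → V) : graftW s t h q ＼ {none} = graft s t p ＼ {none} := by
  have hE : (graftW s t h q ＼ {none}).E = (graft s t p ＼ {none}).E := by
    rw [delete_ground, delete_ground, graftW_E, Pool.Agent.H85.TG.graft_E]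
  refine Matroid.ext_indep hE ?_
  intro I hI
  have hn : none ∉ I := fun h => (hI h).2 rfl
  rw [deleteElem_indep_iff, deleteElem_indep_iff, and_iff_left hn, and_iff_left hn, graftW, graft,
    linMat_indep, linMat_indep]
  apply linearIndepOn_congr
  intro o ho
  rcases o with _ | f
  · exact absurd ho hn
  · rfl

theorem sep2 {p : Fin 4 → V} (h3 : ThreeConn (graft s t p ＼ {none})) (hc : Conn s t)
    (hE : 4 ≤ Nat.card E) (hV : 2 ≤ Fintype.card V) (Z : Set V) {a b z y : V} (hab : a ≠ b)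
    (hz : z ∈ Z) (hyZ : y ∉ Z) (hya : y ≠ a) (hyb : y ≠ b)
    (hends : ∀ f, (s f ∈ Z → t f ∈ Z ∨ t f = a ∨ t f = b) ∧
      (t f ∈ Z → s f ∈ Z ∨ s f = a ∨ s f = b)) : False := by
  have hends' : ∀ f, (s f ∈ Z ∨ t f ∈ Z) →
      (s f ∈ Z ∨ s f ∈ ({a, b} : Finset V)) ∧ (t f ∈ Z ∨ t f ∈ ({a, b} : Finset V)) := by
    intro f hf
    rw [Finset.mem_insert, Finset.mem_singleton, Finset.mem_insert, Finset.mem_singleton]
    rcases hf with hf | hf
    · exact ⟨Or.inl hf, (hends f).1 hf⟩
    · exact ⟨(hends f).2 hf, Or.inl hf⟩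
  have hX : 2 ≤ ({f | s f ∈ Z ∨ t f ∈ Z} : Set E).ncard := by
    refine (two_le_star h3 hc hE hV z).trans (Set.ncard_le_ncard ?_ (Set.toFinite _))
    rintro f (hf | hf)
    · exact Or.inl (by rw [hf]; exact hz)
    · exact Or.inr (by rw [hf]; exact hz)
  have hY2 : 2 ≤ ({f | s f ∈ Z ∨ t f ∈ Z}ᶜ : Set E).ncard := by
    refine (two_le_star h3 hc hE hV y).trans (Set.ncard_le_ncard ?_ (Set.toFinite _))
    intro f hf h4
    have h5 := hends' f h4
    have hjn : ¬ (y ∈ Z ∨ y ∈ ({a, b} : Finset V)) := by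
      rw [Finset.mem_insert, Finset.mem_singleton]
      rintro (h | h | h)
      · exact hyZ h
      · exact hya h
      · exact hyb h
    rcases hf with hf | hf
    · exact hjn (hf ▸ h5.1)
    · exact hjn (hf ▸ h5.2)
  have h1 := tc h3 (Or.inr rfl) hX hY2
  have h2 : (span (ZMod 2) (vec (ZMod 2) s t '' {f | s f ∈ Z ∨ t f ∈ Z}) ⊓
      span (ZMod 2) (vec (ZMod 2) s t '' {f | s f ∈ Z ∨ t f ∈ Z}ᶜ) :
        Submodule (ZMod 2) (V → ZMod 2)) ≤
      span (ZMod 2) {(Pi.single a 1 + Pi.single b 1 : V → ZMod 2)} := by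
    intro x hx
    obtain ⟨h4, h5⟩ := inf_small Z {a, b} hends' hx
    rw [Finset.sum_pair hab] at h5
    rw [mem_span_singleton]
    refine ⟨x a, ?_⟩
    have h6 : x b = x a := by
      revert h5
      generalize x a = a'
      generalize x b = b'
      revert a' b'
      decide
    funext v
    by_cases hvk : v = a
    · rw [hvk]
      simp [Pi.single_eq_of_ne hab]
    by_cases hvl : v = b
    · rw [hvl, h6]
      simp [Pi.single_eq_of_ne hab.symm]
    rw [h4 v (by simp [hvk, hvl])]
    simp [Pi.single_eq_of_ne hvk, Pi.single_eq_of_ne hvl]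
  have h4 := Submodule.finrank_mono h2
  have h5 := finrank_span_le_card (R := ZMod 2)
    ({(Pi.single a 1 + Pi.single b 1 : V → ZMod 2)} : Set (V → ZMod 2))
  rw [Set.toFinset_singleton, Finset.card_singleton] at h5
  omega

theorem cast_ne {n : ℕ} (h0 : 0 < n) (h1 : n < m) : (n : ZMod m) ≠ 0 := by
  intro h2
  have h3 := (CharP.cast_eq_zero_iff (ZMod m) m n).1 h2
  have h4 := Nat.le_of_dvd h0 h3
  omega

theorem cast_ne1 {n : ℕ} (h0 : 2 ≤ n) (h1 : n < m) : (n : ZMod m) ≠ 1 := by
  intro h2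
  obtain ⟨k, rfl⟩ : ∃ k, n = k + 1 := ⟨n - 1, by omega⟩
  rw [Nat.cast_succ, add_eq_right] at h2
  exact cast_ne (by omega) (by omega) h2

/-- the sector between `q i` and `q (i + 1)` with its two ends -/
def Xs (h : V) (q : ZMod m → V) (c : V → ZMod m) (i : ZMod m) : Set V :=
  {u | u = q i ∨ u = q (i + 1) ∨ (Out h q u ∧ c u = i)}

theorem joined_J {p : Fin 4 → V} (h3 : ThreeConn (graft s t p ＼ {none})) (hc : Conn s t)
    (hE : 4 ≤ Nat.card E) (hV : 2 ≤ Fintype.card V) (hq : Function.Injective q)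
    (hh : ∀ i, q i ≠ h) (hm3 : 3 ≤ m) (hw : Wheel s t h q c) (i : ZMod m) :
    (Pi.single (q i) 1 - Pi.single (q (i + 1)) 1 : V → ZMod 2) ∈
      span (ZMod 2) (vec (ZMod 2) s t '' {f | s f ∈ Xs h q c i ∧ t f ∈ Xs h q c i}) := by
  have h01 : (1 : ZMod m) ≠ 0 := by
    have := cast_ne (m := m) (n := 1) (by omega) (by omega)
    rwa [Nat.cast_one] at this
  have h02 : (1 + 1 : ZMod m) ≠ 0 := by
    have := cast_ne (m := m) (n := 2) (by omega) (by omega)
    intro h0
    apply this
    rw [← h0]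
    norm_num
  by_contra hcon
  obtain ⟨Y, hiY, hjY, hY⟩ := cut hcon
  obtain ⟨Z, hZ⟩ : ∃ Z : Set V, Z = {u | u = q (i + 1) ∨ (Out h q u ∧ c u = i ∧ u ∉ Y) ∨
    (Out h q u ∧ c u = i + 1)} := ⟨_, rfl⟩
  have step : ∀ u u', Fits h q c u u' → Fits h q c u' u →
      (u ∈ Xs h q c i → u' ∈ Xs h q c i → (u ∈ Y ↔ u' ∈ Y)) → u ∈ Z →
        u' ∈ Z ∨ u' = h ∨ u' = q (i + 1 + 1) := by
    intro u u' hf hf' hadj hu
    rw [hZ] at hu ⊢
    rcases cases3 h q u' with hu' | ⟨j, hu'⟩ | hu'
    · exact Or.inr (Or.inl hu')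
    · rcases hu with hu | ⟨hu, hci, huY⟩ | ⟨hu, hci⟩
      · rcases hf.2.2 (i + 1) j hu.symm hu' with h4 | h4 | h4
        · exact Or.inl (Or.inl (by rw [← hu', h4]))
        · exact Or.inr (Or.inr (by rw [← hu', h4]))
        · exfalso
          have h5 : j = i := (add_left_injective 1 h4).symm
          have h6 := hadj (Or.inr (Or.inl hu)) (Or.inl (by rw [← hu', h5]))
          rw [hu, ← hu', h5] at h6
          exact hjY (h6.2 hiY)
      · rcases hf'.2.1 j hu' hu with h4 | h4
        · exfalso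
          rw [hci] at h4
          have h6 := hadj (Or.inr (Or.inr ⟨hu, hci⟩)) (Or.inl (by rw [← hu', h4]))
          rw [← hu', h4] at h6
          exact huY (h6.2 hiY)
        · exact Or.inl (Or.inl (by rw [← hu', h4, hci]))
      · rcases hf'.2.1 j hu' hu with h4 | h4
        · exact Or.inl (Or.inl (by rw [← hu', h4, hci]))
        · exact Or.inr (Or.inr (by rw [← hu', h4, hci]))
    · left
      rcases hu with hu | ⟨hu, hci, huY⟩ | ⟨hu, hci⟩
      · rcases hf.2.1 (i + 1) hu.symm hu' with h4 | h4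
        · exact Or.inr (Or.inr ⟨hu', h4.symm⟩)
        · have h5 : c u' = i := (add_left_injective 1 h4).symm
          refine Or.inr (Or.inl ⟨hu', h5, ?_⟩)
          intro h6
          have h7 := hadj (Or.inr (Or.inl hu)) (Or.inr (Or.inr ⟨hu', h5⟩))
          rw [hu] at h7
          exact hjY (h7.2 h6)
      · have h5 : c u' = i := (hf.1 hu hu').symm.trans hci
        refine Or.inr (Or.inl ⟨hu', h5, ?_⟩)
        intro h6
        exact huY ((hadj (Or.inr (Or.inr ⟨hu, hci⟩)) (Or.inr (Or.inr ⟨hu', h5⟩))).2 h6)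
      · exact Or.inr (Or.inr ⟨hu', (hf.1 hu hu').symm.trans hci⟩)
  refine sep2 h3 hc hE hV Z (a := h) (b := q (i + 1 + 1)) (z := q (i + 1)) (y := q i)
    (hh _).symm (hZ ▸ Or.inl rfl) ?_ (hh i) ?_ ?_
  · rw [hZ]
    rintro (h4 | h4 | h4)
    · have h5 := hq h4
      rw [left_eq_add] at h5
      exact h01 h5
    · exact h4.1.2 i rfl
    · exact h4.1.2 i rfl
  · intro h4
    have h5 := hq h4
    rw [add_assoc, left_eq_add] at h5
    exact h02 h5
  · intro f
    constructor
    · intro hf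
      exact step (s f) (t f) (hw f).1 (hw f).2 (fun h5 h6 => hY f ⟨h5, h6⟩) hf
    · intro hf
      exact step (t f) (s f) (hw f).2 (hw f).1 (fun h5 h6 => (hY f ⟨h6, h5⟩).symm) hf

theorem joined_K {p : Fin 4 → V} (h3 : ThreeConn (graft s t p ＼ {none})) (hc : Conn s t)
    (hE : 4 ≤ Nat.card E) (hV : 2 ≤ Fintype.card V) (hq : Function.Injective q)
    (hh : ∀ i, q i ≠ h) (hm3 : 3 ≤ m) (hw : Wheel s t h q c) (i : ZMod m) :
    (Pi.single h 1 - Pi.single (q (i + 1 + 1)) 1 : V → ZMod 2) ∈
      span (ZMod 2) (vec (ZMod 2) s t '' {f | s f ∉ Xs h q c i ∧ t f ∉ Xs h q c i}) := by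
  have h01 : (1 : ZMod m) ≠ 0 := by
    have := cast_ne (m := m) (n := 1) (by omega) (by omega)
    rwa [Nat.cast_one] at this
  have h02 : (1 + 1 : ZMod m) ≠ 0 := by
    have := cast_ne (m := m) (n := 2) (by omega) (by omega)
    intro h0
    apply this
    rw [← h0]
    norm_num
  by_contra hcon
  obtain ⟨Y, hiY, hjY, hY⟩ := cut hcon
  obtain ⟨Z, hZ⟩ : ∃ Z : Set V, Z = {u | u ∉ Xs h q c i ∧ u ∉ Y} := ⟨_, rfl⟩
  have step : ∀ u u', Fits h q c u u' → Fits h q c u' u →
      (u ∉ Xs h q c i → u' ∉ Xs h q c i → (u ∈ Y ↔ u' ∈ Y)) → u ∈ Z →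
        u' ∈ Z ∨ u' = q i ∨ u' = q (i + 1) := by
    intro u u' hf hf' hadj hu
    rw [hZ] at hu ⊢
    by_cases hX' : u' ∈ Xs h q c i
    · rcases hX' with h4 | h4 | ⟨h4, h5⟩
      · exact Or.inr (Or.inl h4)
      · exact Or.inr (Or.inr h4)
      · exfalso
        rcases cases3 h q u with h6 | ⟨j, h6⟩ | h6
        · exact hu.2 (h6 ▸ hiY)
        · rcases hf.2.1 j h6 h4 with h7 | h7
          · exact hu.1 (Or.inl (by rw [← h6, h7, h5]))
          · exact hu.1 (Or.inr (Or.inl (by rw [← h6, h7, h5])))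
        · exact hu.1 (Or.inr (Or.inr ⟨h6, (hf.1 h6 h4).trans h5⟩))
    · exact Or.inl ⟨hX', fun h4 => hu.2 ((hadj hu.1 hX').2 h4)⟩
  refine sep2 h3 hc hE hV Z (a := q i) (b := q (i + 1)) (z := q (i + 1 + 1)) (y := h)
    ?_ ?_ ?_ (hh i).symm (hh _).symm ?_
  · intro h4
    have h5 := hq h4
    rw [left_eq_add] at h5
    exact h01 h5
  · rw [hZ]
    refine ⟨?_, hjY⟩
    rintro (h4 | h4 | h4)
    · have h5 := hq h4
      rw [add_assoc, add_eq_left] at h5
      exact h02 h5
    · have h5 := hq h4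
      rw [add_eq_left] at h5
      exact h01 h5
    · exact h4.1.2 _ rfl
  · rw [hZ]
    exact fun h4 => h4.2 hiY
  · intro f
    constructor
    · intro hf
      exact step (s f) (t f) (hw f).1 (hw f).2 (fun h5 h6 => hY f ⟨h5, h6⟩) hf
    · intro hf
      exact step (t f) (s f) (hw f).2 (hw f).1 (fun h5 h6 => (hY f ⟨h6, h5⟩).symm) hf

theorem sum_range_zmod {M : Type} [AddCommMonoid M] (g : ZMod m → M) :
    ∑ j, g j = ∑ n ∈ Finset.range m, g (n : ZMod m) := by
  obtain ⟨k, rfl⟩ : ∃ k, m = k + 1 := ⟨m - 1, by have := NeZero.ne m; omega⟩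
  have h1 := Fin.sum_univ_eq_sum_range (fun n => g (n : ZMod (k + 1))) (k + 1)
  rw [← h1]
  refine Finset.sum_congr rfl fun j _ => ?_
  exact congrArg g (ZMod.natCast_zmod_val (n := k + 1) j).symm

theorem sep_all {p : Fin 4 → V} (h3 : ThreeConn (graft s t p ＼ {none})) (hc : Conn s t)
    (hE : 4 ≤ Nat.card E) (hV : 2 ≤ Fintype.card V) (hq : Function.Injective q)
    (hh : ∀ i, q i ≠ h) (hm : m % 2 = 1) (hm3 : 3 ≤ m) (hw : Wheel s t h q c) (i : ZMod m) :
    Sep s t h q i := by
  obtain ⟨S, hS⟩ : ∃ S : Submodule (ZMod 2) (V → ZMod 2), S = span (ZMod 2)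
      (vec (ZMod 2) s t '' {f | (s f ∈ Xs h q c i ∧ t f ∈ Xs h q c i) ∨
        (s f ∉ Xs h q c i ∧ t f ∉ Xs h q c i)}) := ⟨_, rfl⟩
  have hJ : (Pi.single (q i) 1 + Pi.single (q (i + 1)) 1 : V → ZMod 2) ∈ S := by
    rw [← sub_vec, hS]
    exact span_mono (Set.image_mono fun f hf => Or.inl hf) (joined_J h3 hc hE hV hq hh hm3 hw i)
  have hK : ∀ n : ℕ, 2 ≤ n → n < m →
      (Pi.single h 1 + Pi.single (q (i + (n : ZMod m))) 1 : V → ZMod 2) ∈ S := by
    intro n hn
    induction n, hn using Nat.le_induction with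
    | base =>
      intro _
      have h4 : i + ((2 : ℕ) : ZMod m) = i + 1 + 1 := by
        push_cast
        ring
      rw [h4, ← sub_vec, hS]
      exact span_mono (Set.image_mono fun f hf => Or.inr hf)
        (joined_K h3 hc hE hV hq hh hm3 hw i)
    | succ n hn ih =>
      intro hlt
      have h4 := ih (by omega)
      have h5 := joined_J h3 hc hE hV hq hh hm3 hw (i + (n : ZMod m))
      have h6 : (Pi.single (q (i + (n : ZMod m))) 1 +
          Pi.single (q (i + (n : ZMod m) + 1)) 1 : V → ZMod 2) ∈ S := by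
        rw [← sub_vec, hS]
        refine span_mono (Set.image_mono ?_) h5
        have h7 : ∀ v, v ∈ Xs h q c (i + (n : ZMod m)) → v ∉ Xs h q c i := by
          have hn0 : (n : ZMod m) ≠ 0 := cast_ne (by omega) (by omega)
          have hn1 : (n : ZMod m) ≠ 1 := cast_ne1 (by omega) (by omega)
          have hn2 : (n : ZMod m) + 1 ≠ 0 := by
            have := cast_ne (m := m) (n := n + 1) (by omega) (by omega)
            rwa [Nat.cast_succ] at this
          rintro v (h8 | h8 | ⟨h8, h9⟩) (h10 | h10 | ⟨h10, h11⟩)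
          · have h12 := hq (h8.symm.trans h10)
            rw [add_eq_left] at h12
            exact hn0 h12
          · have h12 := hq (h8.symm.trans h10)
            exact hn1 (add_left_cancel h12)
          · exact h10.2 _ h8.symm
          · have h12 := hq (h8.symm.trans h10)
            rw [add_assoc, add_eq_left] at h12
            exact hn2 h12
          · have h12 := hq (h8.symm.trans h10)
            rw [add_assoc] at h12
            have h13 := add_left_cancel h12
            rw [add_eq_right] at h13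
            exact hn0 h13
          · exact h10.2 _ h8.symm
          · exact h8.2 _ h10.symm
          · exact h8.2 _ h10.symm
          · rw [h9, add_eq_left] at h11
            exact hn0 h11
        intro f hf
        exact Or.inr ⟨h7 _ hf.1, h7 _ hf.2⟩
      rw [add_comm] at h4
      have h7 := tri_mem h4 h6
      rw [Nat.cast_succ, ← add_assoc]
      exact h7
  refine ⟨Xs h q c i, Or.inl rfl, Or.inr (Or.inl rfl), ?_, ?_, ?_⟩
  · rintro (h4 | h4 | h4)
    · exact hh _ h4.symm
    · exact hh _ h4.symm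
    · exact h4.1.1 rfl
  · rintro j hj hj1 (h4 | h4 | h4)
    · exact hj (hq h4)
    · exact hj1 (hq h4)
    · exact h4.1.2 j rfl
  · rw [← hS]
    show (Pi.single h 1 + ∑ j, Pi.single (q j) 1 : V → ZMod 2) ∈ S
    have h4 : ∑ j, (Pi.single (q j) 1 : V → ZMod 2) =
        ∑ n ∈ Finset.range m, Pi.single (q (i + (n : ZMod m))) 1 := by
      rw [← Equiv.sum_comp (Equiv.addLeft i) (fun j => (Pi.single (q j) 1 : V → ZMod 2))]
      exact sum_range_zmod (fun j => (Pi.single (q (i + j)) 1 : V → ZMod 2))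
    obtain ⟨r, hr⟩ : ∃ r, m = 2 * r + 1 + 2 := ⟨(m - 3) / 2, by omega⟩
    have h5 : ∑ n ∈ Finset.range m, (Pi.single (q (i + (n : ZMod m))) 1 : V → ZMod 2) =
        ∑ n ∈ Finset.range (2 * r + 1), Pi.single (q (i + ((n + 2 : ℕ) : ZMod m))) 1 +
          Pi.single (q (i + 1)) 1 + Pi.single (q i) 1 := by
      have h6 : Finset.range m = Finset.range (2 * r + 1 + 2) := by rw [← hr]
      rw [h6, Finset.sum_range_succ', Finset.sum_range_succ']
      rw [Nat.cast_zero, add_zero, Nat.zero_add, Nat.cast_one]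
    have h6 : (Pi.single h 1 : V → ZMod 2) = ∑ n ∈ Finset.range (2 * r + 1), Pi.single h 1 := by
      rw [Finset.sum_const, Finset.card_range, succ_nsmul, mul_comm, mul_nsmul, two_nsmul]
      rw [← smul_add, add_self_vec, smul_zero, zero_add]
    have h7 : (Pi.single h 1 + ∑ j, Pi.single (q j) 1 : V → ZMod 2) =
        ∑ n ∈ Finset.range (2 * r + 1),
          (Pi.single h 1 + Pi.single (q (i + ((n + 2 : ℕ) : ZMod m))) 1) +
            (Pi.single (q i) 1 + Pi.single (q (i + 1)) 1) := by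
      rw [Finset.sum_add_distrib, ← h6, h4, h5]
      abel
    rw [h7]
    refine add_mem (sum_mem fun n hn => hK _ (by omega) ?_) hJ
    have := Finset.mem_range.1 hn
    omega

/-- the main theorem on wheels -/
theorem wheel_main (hq : Function.Injective q) (hh : ∀ i, q i ≠ h) (hm : m % 2 = 1)
    (hm3 : 3 ≤ m) (hw : Wheel s t h q c) (hc : Conn s t)
    (hG : ThreeConn (graftW s t h q ＼ {none})) : ThreeConn (graftW s t h q) ∧
      ∀ (F : Type) [Field F], (2 : F) ≠ 0 → ¬ Rep (graftW s t h q) F := by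
  obtain ⟨p, hp, hpT⟩ : ∃ p : Fin 4 → V, Function.Injective p ∧
      ∀ k, evW s t h q none (p k) = 1 := by
    refine ⟨Fin.cons h (fun k : Fin 3 => q ((k : ℕ) : ZMod m)), ?_, ?_⟩
    · rw [Fin.cons_injective_iff]
      refine ⟨?_, ?_⟩
      · rintro ⟨k, hk⟩
        exact hh _ hk
      · intro a b hab
        have h1 := hq hab
        have h2 := congrArg ZMod.val h1
        rw [ZMod.val_cast_of_lt (by omega), ZMod.val_cast_of_lt (by omega)] at h2
        exact Fin.ext h2
    · intro k
      refine Fin.cases ?_ (fun k => ?_) k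
      · rw [Fin.cons_zero]
        show (Pi.single h 1 + ∑ i, (Pi.single (q i) 1 : V → ZMod 2) : V → ZMod 2) h = 1
        rw [Pi.add_apply, Pi.single_eq_same, Finset.sum_apply, Finset.sum_eq_zero, add_zero]
        intro i _
        rw [Pi.single_eq_of_ne (hh i).symm]
      · rw [Fin.cons_succ]
        exact evW_q hq hh _
  have hG' : ThreeConn (graft s t p ＼ {none}) := by
    rw [← del_eq (h := h) (q := q) p]
    exact hG
  have hE := card_of_three hG' hc hp
  have hV : 2 ≤ Fintype.card V := by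
    have := Fintype.card_le_of_injective p hp
    rw [Fintype.card_fin] at this
    omega
  have hoff : Off s t := fun u a b ha hb => sub_mem_span hG' hc ha hb
  have hsep := sep_all (c := c) hG' hc hE hV hq hh hm hm3 hw
  refine ⟨?_, fun F _ h2 => nonrepW hoff hc hq hh hm hm3 hsep h2⟩
  have hE' : (graftW s t h q ＼ {none}).E = some '' (univ : Set E) := by
    rw [del_eq p]
    exact Pool.Agent.H85.TG.E_eq
  refine three_of_delete evW_rep (e := none) (by rw [graftW_E]; exact mem_univ _) hG ?_ ?_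
    (evW_ne hh) ?_
  · rw [hE', ncard_some, Set.ncard_univ]
    exact hE
  · rw [hE', Set.image_image]
    obtain ⟨X, -, -, -, -, hX⟩ := hsep 0
    exact span_mono (Set.image_mono (subset_univ _)) hX
  · intro o ho hev
    rw [hE'] at ho
    obtain ⟨f, _, rfl⟩ := ho
    have h1 : ∀ k, p k = s f ∨ p k = t f := by
      intro k
      by_contra h0
      push Not at h0
      have h4 := congrFun hev (p k)
      rw [hpT] at h4
      have h5 : evW s t h q (some f) (p k) = 0 := vec_zero h0.1.symm h0.2.symm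
      rw [h5] at h4
      exact one_ne_zero h4
    rcases h1 0 with a | a <;> rcases h1 1 with b | b <;> rcases h1 2 with d | d <;>
      first
        | exact absurd (hp (a.trans b.symm)) (by decide)
        | exact absurd (hp (a.trans d.symm)) (by decide)
        | exact absurd (hp (b.trans d.symm)) (by decide)

end Pool.Agent.H85.TV
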