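import Pool.Agent.H85.TV.Gra

set_option autoImplicit false
set_option linter.unusedSectionVars false

/-!
# Grafts of wheel type (MP_367fb1_co): no representation over a field in which `2 ≠ 0`
-/

open Set Matroid Module Submodule
open scoped Matroid

namespace Pool.Agent.H85.TV

open Pool.Agent.H18.SG (vec linMat linMat_indep linMat_ground gr)
open Pool.Agent.H36.TX (IsRep Rep Regular ThreeConn)
open Pool.Agent.H85.TX (rk indepOn_iff eRk_eq Represents mem_closure_iff)
open Pool.Agent.H85.TG (Graphic Conn Off sumC sumC_single sub_vec add_self_vec zmod_one graft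
  vec_zero exists_edge vec_mem_off)

variable {V E : Type} [Fintype V] [DecidableEq V] [Finite E] {m : ℕ} [NeZero m]
variable {s t : E → V} {h : V} {q : ZMod m → V} {c : V → ZMod m}

theorem evW_rep : Represents (ZMod 2) (evW s t h q) (graftW s t h q) := by
  intro I _
  rw [graftW, linMat_indep]

theorem graftW_E : (graftW s t h q).E = univ := by
  rw [graftW, linMat_ground]

theorem evW_out {u : V} (hu : Out h q u) : evW s t h q none u = 0 := by
  show (Pi.single h 1 + ∑ i, (Pi.single (q i) 1 : V → ZMod 2) : V → ZMod 2) u = 0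
  rw [Pi.add_apply, Pi.single_eq_of_ne hu.1, Finset.sum_apply, Finset.sum_eq_zero, add_zero]
  intro i _
  rw [Pi.single_eq_of_ne (hu.2 i).symm]

theorem evW_q (hq : Function.Injective q) (hh : ∀ i, q i ≠ h) (i : ZMod m) :
    evW s t h q none (q i) = 1 := by
  show (Pi.single h 1 + ∑ i, (Pi.single (q i) 1 : V → ZMod 2) : V → ZMod 2) (q i) = 1
  rw [Pi.add_apply, Pi.single_eq_of_ne (hh i), Finset.sum_apply, Finset.sum_eq_single i, zero_add,
    Pi.single_eq_same]
  · intro j _ hj
    rw [Pi.single_eq_of_ne (fun h4 => hj (hq h4).symm)]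
  · intro h4
    exact absurd (Finset.mem_univ i) h4

section rep

variable {F W' : Type} [Field F] [AddCommGroup W'] [Module F W'] {w : Option E → W'}

theorem transferW (hw : Represents F w (graftW s t h q)) (o : Option E) (X : Set (Option E)) :
    evW s t h q o ∈ span (ZMod 2) (evW s t h q '' X) ↔ w o ∈ span F (w '' X) := by
  rw [← mem_closure_iff evW_rep (by rw [graftW_E]; exact subset_univ _)
    (by rw [graftW_E]; exact mem_univ _),
    ← mem_closure_iff hw (by rw [graftW_E]; exact subset_univ _)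
    (by rw [graftW_E]; exact mem_univ _)]

theorem rk_eqW (hw : Represents F w (graftW s t h q)) :
    rk F w univ = rk (ZMod 2) (evW s t h q) univ := by
  have h1 := eRk_eq hw (X := univ) (by rw [graftW_E])
  have h2 := eRk_eq (evW_rep (s := s) (t := t) (h := h) (q := q)) (X := univ) (by rw [graftW_E])
  rw [h1] at h2
  exact_mod_cast h2

theorem rk_ltW (hm : m % 2 = 1) : rk (ZMod 2) (evW s t h q) univ < Fintype.card V := by
  have h1 : span (ZMod 2) (evW s t h q '' univ) ≤ LinearMap.ker (sumC (V := V)) := by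
    rw [span_le]
    rintro _ ⟨o, _, rfl⟩
    exact sumC_evW hm o
  have h2 : LinearMap.ker (sumC (V := V)) ≠ ⊤ := by
    intro h0
    have h4 : (Pi.single h 1 : V → ZMod 2) ∈ LinearMap.ker (sumC (V := V)) := by
      rw [h0]
      exact mem_top
    have h5 : sumC (Pi.single h 1 : V → ZMod 2) = 0 := h4
    rw [sumC_single] at h5
    exact one_ne_zero h5
  have h4 := Submodule.finrank_lt h2
  rw [Module.finrank_pi] at h4
  exact (Submodule.finrank_mono h1).trans_lt h4

theorem exists_psiW (hoff : Off s t) (hc : Conn s t) (hV : 2 ≤ Fintype.card V) (hm : m % 2 = 1)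
    (hw : Represents F w (graftW s t h q)) (u : V) :
    ∃ ψ : W' →ₗ[F] F, ∀ o, ψ (w o) = 0 ↔ evW s t h q o u = 0 := by
  obtain ⟨b, hb⟩ : ∃ b, b ≠ u := by
    have : Nontrivial V := Fintype.one_lt_card_iff_nontrivial.1 (by omega)
    exact exists_ne u
  obtain ⟨f0, hf0⟩ := exists_edge hc hV u
  have hf1 : evW s t h q (some f0) u ≠ 0 := by
    show vec (ZMod 2) s t f0 u ≠ 0
    unfold vec
    rw [Pi.sub_apply]
    rcases hf0 with hf | hf
    · rw [hf.1, Pi.single_eq_same, Pi.single_eq_of_ne hf.2.symm, sub_zero]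
      exact one_ne_zero
    · rw [hf.1, Pi.single_eq_same, Pi.single_eq_of_ne hf.2.symm, zero_sub]
      exact neg_ne_zero.2 one_ne_zero
  obtain ⟨R, hR⟩ : ∃ R : Set (Option E), R = some '' {f | s f ≠ u ∧ t f ≠ u} := ⟨_, rfl⟩
  have hoff' : ∀ x : V → ZMod 2, sumC x = 0 → x u = 0 →
      x ∈ span (ZMod 2) (evW s t h q '' R) := by
    intro x h1 h2
    have h3 := vec_mem_off hoff hb h1 h2
    rw [hR, Set.image_image]
    exact h3
  have h1 : w (some f0) ∉ span F (w '' R) := by
    rw [← transferW hw]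
    intro h
    apply hf1
    rw [hR, Set.image_image] at h
    exact Pool.Agent.H85.TG.span_supp (s := s) (t := t) (X := {f | s f ≠ u ∧ t f ≠ u})
      (Z := {u}ᶜ) (fun f hf => hf) h (fun h6 => h6 rfl)
  obtain ⟨ψ, h2, h4⟩ := Submodule.exists_le_ker_of_notMem h1
  refine ⟨ψ, fun o => ⟨fun h5 => ?_, fun h5 => ?_⟩⟩
  · by_contra h6
    apply h2
    have h7 : evW s t h q (some f0) ∈ span (ZMod 2) (evW s t h q '' insert o R) := by
      rw [Set.image_insert_eq]
      have h8 : evW s t h q (some f0) =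
          evW s t h q o + (evW s t h q (some f0) - evW s t h q o) := by abel
      rw [h8]
      refine add_mem (subset_span (mem_insert _ _)) (span_mono (subset_insert _ _) ?_)
      refine hoff' _ ?_ ?_
      · rw [map_sub, sumC_evW hm, sumC_evW hm, sub_self]
      · rw [Pi.sub_apply, zmod_one hf1, zmod_one h6, sub_self]
    have h8 := (transferW hw _ _).1 h7
    have h9 : span F (w '' insert o R) ≤ LinearMap.ker ψ := by
      rw [Set.image_insert_eq, span_insert]
      refine sup_le ?_ h4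
      rw [span_singleton_le_iff_mem]
      exact h5
    exact h9 h8
  · exact h4 ((transferW hw _ _).1 (hoff' _ (sumC_evW hm o) h5))

theorem exists_relW (hm : m % 2 = 1) (hw : Represents F w (graftW s t h q))
    (ψ : V → W' →ₗ[F] F) : ∃ l : V → F, l ≠ 0 ∧ ∀ o, ∑ u, l u * ψ u (w o) = 0 := by
  obtain ⟨S, hS⟩ : ∃ S, S = (span F (w '' univ)).map (LinearMap.pi ψ) := ⟨_, rfl⟩
  have hfin : FiniteDimensional F (span F (w '' univ)) :=
    FiniteDimensional.span_of_finite F (Set.toFinite _)
  have h1 : S ≠ ⊤ := by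
    intro h0
    have h2 : finrank F S = Fintype.card V := by
      rw [h0, finrank_top, Module.finrank_pi]
    have h4 : finrank F S ≤ rk F w univ := by
      rw [hS]
      exact Submodule.finrank_map_le _ _
    have h5 := rk_ltW (s := s) (t := t) (h := h) (q := q) hm
    rw [← rk_eqW hw] at h5
    omega
  obtain ⟨y, hy⟩ : ∃ y, y ∉ S := by
    by_contra hn
    push Not at hn
    exact h1 (eq_top_iff.2 fun y _ => hn y)
  obtain ⟨θ, h2, h4⟩ := Submodule.exists_le_ker_of_notMem hy
  have hθ : ∀ z : V → F, θ z = ∑ u, θ (Pi.single u 1) * z u := by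
    intro z
    have h5 : z = ∑ v, z v • (Pi.single v 1 : V → F) := by
      funext q
      simp [Finset.sum_apply, Pi.single_apply]
    conv_lhs => rw [h5, map_sum]
    refine Finset.sum_congr rfl fun u _ => ?_
    rw [map_smul, smul_eq_mul, mul_comm]
  refine ⟨fun u => θ (Pi.single u 1), ?_, ?_⟩
  · intro h5
    apply h2
    rw [hθ]
    apply Finset.sum_eq_zero
    intro u _
    rw [show θ (Pi.single u 1) = 0 from congrFun h5 u, zero_mul]
  · intro o
    have h5 : LinearMap.pi ψ (w o) ∈ S := by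
      rw [hS]
      exact mem_map_of_mem (subset_span ⟨o, mem_univ _, rfl⟩)
    have h6 : θ (LinearMap.pi ψ (w o)) = 0 := h4 h5
    rw [hθ] at h6
    exact h6

end rep

/-- the pairs `q i`, `q (i + 1)` can be joined, the rest apart from it -/
def Sep (s t : E → V) (h : V) (q : ZMod m → V) (i : ZMod m) : Prop :=
  ∃ X : Set V, q i ∈ X ∧ q (i + 1) ∈ X ∧ h ∉ X ∧ (∀ j, j ≠ i → j ≠ i + 1 → q j ∉ X) ∧
    evW s t h q none ∈ span (ZMod 2)
      (vec (ZMod 2) s t '' {f | (s f ∈ X ∧ t f ∈ X) ∨ (s f ∉ X ∧ t f ∉ X)})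

theorem nonrepW (hoff : Off s t) (hc : Conn s t) (hq : Function.Injective q)
    (hh : ∀ i, q i ≠ h) (hm : m % 2 = 1) (h3 : 3 ≤ m) (hsep : ∀ i, Sep s t h q i)
    {F : Type} [Field F] (h2 : (2 : F) ≠ 0) : ¬ Rep (graftW s t h q) F := by
  classical
  rintro ⟨W', _, _, w, hw'⟩
  have hw : Represents F w (graftW s t h q) := hw'
  have h01 : (0 : ZMod m) ≠ 1 := by
    have : Fact (1 < m) := ⟨by omega⟩
    exact zero_ne_one
  have hV : 2 ≤ Fintype.card V := by
    have : Nontrivial V := ⟨⟨q 0, q 1, fun h0 => h01 (hq h0)⟩⟩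
    exact Fintype.one_lt_card
  choose ψ hψ using exists_psiW hoff hc hV hm hw
  obtain ⟨l, hl, hrel⟩ := exists_relW hm hw ψ
  have hzero : ∀ f u, s f ≠ u → t f ≠ u → ψ u (w (some f)) = 0 := fun f u h6 h7 =>
    (hψ u (some f)).2 (vec_zero h6 h7)
  have hedge : ∀ f, s f ≠ t f → (l (s f) = 0 ↔ l (t f) = 0) := by
    intro f hf
    have h1 := hrel (some f)
    rw [Fintype.sum_eq_add (s f) (t f) hf
      (fun u hu => by rw [hzero f u hu.1.symm hu.2.symm, mul_zero])] at h1
    have hA : ψ (s f) (w (some f)) ≠ 0 := by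
      rw [Ne, hψ]
      show vec (ZMod 2) s t f (s f) ≠ 0
      unfold vec
      rw [Pi.sub_apply, Pi.single_eq_same, Pi.single_eq_of_ne hf, sub_zero]
      exact one_ne_zero
    have hB : ψ (t f) (w (some f)) ≠ 0 := by
      rw [Ne, hψ]
      show vec (ZMod 2) s t f (t f) ≠ 0
      unfold vec
      rw [Pi.sub_apply, Pi.single_eq_same, Pi.single_eq_of_ne hf.symm, zero_sub]
      exact neg_ne_zero.2 one_ne_zero
    constructor
    · intro h4
      rw [h4, zero_mul, zero_add] at h1
      exact (mul_eq_zero.1 h1).resolve_right hB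
    · intro h4
      rw [h4, zero_mul, add_zero] at h1
      exact (mul_eq_zero.1 h1).resolve_right hA
  have hall : ∀ u, l u ≠ 0 := by
    by_contra hcon
    push Not at hcon
    obtain ⟨u0, hu0⟩ := hcon
    obtain ⟨u1, hu1⟩ : ∃ u, l u ≠ 0 := by
      by_contra hn
      push Not at hn
      exact hl (funext hn)
    obtain ⟨f, hf⟩ := hc {u | l u = 0} ⟨u0, hu0⟩ ⟨u1, hu1⟩
    rcases hf with ⟨h4, h5⟩ | ⟨h4, h5⟩
    · exact h5 ((hedge f (fun h => h5 (by rw [← h]; exact h4))).1 h4)
    · exact h5 ((hedge f (fun h => h5 (by rw [h]; exact h4))).2 h4)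
  have hpair : ∀ i : ZMod m, l (q i) * ψ (q i) (w none) + l (q (i + 1)) * ψ (q (i + 1)) (w none)
      = 0 := by
    intro i
    obtain ⟨X, hi, hi1, hhX, hX, hin0⟩ := hsep i
    obtain ⟨θ, hθ⟩ : ∃ θ : W' →ₗ[F] F,
        ∀ x, θ x = ∑ u ∈ Finset.univ.filter (· ∈ X), l u * ψ u x := by
      refine ⟨∑ u ∈ Finset.univ.filter (· ∈ X), l u • ψ u, fun x => ?_⟩
      rw [LinearMap.sum_apply]
      rfl
    obtain ⟨R, hR⟩ : ∃ R : Set E, R = {f | (s f ∈ X ∧ t f ∈ X) ∨ (s f ∉ X ∧ t f ∉ X)} := ⟨_, rfl⟩
    have hin : evW s t h q none ∈ span (ZMod 2) (evW s t h q '' (some '' R)) := by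
      rw [Set.image_image, hR]
      exact hin0
    have hker : span F (w '' (some '' R)) ≤ LinearMap.ker θ := by
      rw [span_le]
      rintro _ ⟨_, ⟨f, hf, rfl⟩, rfl⟩
      show θ (w (some f)) = 0
      rw [hθ]
      rw [hR] at hf
      rcases hf with hf | hf
      · rw [← hrel (some f)]
        apply Finset.sum_subset (Finset.subset_univ _)
        intro u _ hu
        have hu' : u ∉ X := by simpa using hu
        rw [hzero f u (fun h => hu' (h ▸ hf.1)) (fun h => hu' (h ▸ hf.2)), mul_zero]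
      · apply Finset.sum_eq_zero
        intro u hu
        have hu' : u ∈ X := by simpa using hu
        rw [hzero f u (fun h => hf.1 (h ▸ hu')) (fun h => hf.2 (h ▸ hu')), mul_zero]
    have h6 : θ (w none) = 0 := hker ((transferW hw _ _).1 hin)
    rw [hθ, Finset.sum_eq_add_of_mem (q i) (q (i + 1))] at h6
    · exact h6
    · exact Finset.mem_filter.2 ⟨Finset.mem_univ _, hi⟩
    · exact Finset.mem_filter.2 ⟨Finset.mem_univ _, hi1⟩
    · intro h0
      have h7 := hq h0
      rw [left_eq_add] at h7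
      exact h01 h7.symm
    · rintro u hu ⟨h7, h8⟩
      have hu' : u ∈ X := (Finset.mem_filter.1 hu).2
      rw [(hψ u none).2 (evW_out ⟨?_, ?_⟩), mul_zero]
      · rintro rfl
        exact hhX hu'
      · rintro j rfl
        by_cases hj : j = i
        · exact h7 (by rw [hj])
        · by_cases hj1 : j = i + 1
          · exact h8 (by rw [hj1])
          · exact hX j hj hj1 hu'
  have hpow : ∀ n : ℕ, l (q (n : ZMod m)) * ψ (q (n : ZMod m)) (w none) =
      (-1) ^ n * (l (q 0) * ψ (q 0) (w none)) := by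
    intro n
    induction n with
    | zero => rw [Nat.cast_zero, pow_zero, one_mul]
    | succ n ih =>
      have h4 := hpair (n : ZMod m)
      rw [Nat.cast_succ, pow_succ]
      linear_combination h4 - ih
  have h4 := hpow m
  rw [ZMod.natCast_self, Odd.neg_one_pow (Nat.odd_iff.2 hm)] at h4
  have h5 : 2 * (l (q 0) * ψ (q 0) (w none)) = 0 := by
    linear_combination h4
  rcases mul_eq_zero.1 ((mul_eq_zero.1 h5).resolve_left h2) with h0 | h0
  · exact hall _ h0
  · rw [hψ, evW_q hq hh] at h0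
    exact one_ne_zero h0

end Pool.Agent.H85.TV
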